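import Pool.Agent.Lib.helper1.Subtree

namespace Pool.Agent.H.MP_e83d06_co
open Pool.Agent.Lib.helper1.Subtree

def L1 : List (Fin 84 × Fin 84) := [(⟨55, by decide⟩, ⟨83, by decide⟩), (⟨0, by decide⟩, ⟨62, by decide⟩), (⟨61, by decide⟩, ⟨62, by decide⟩), (⟨60, by decide⟩, ⟨61, by decide⟩), (⟨59, by decide⟩, ⟨60, by decide⟩), (⟨58, by decide⟩, ⟨59, by decide⟩), (⟨57, by decide⟩, ⟨58, by decide⟩), (⟨56, by decide⟩, ⟨57, by decide⟩), (⟨55, by decide⟩, ⟨56, by decide⟩), (⟨54, by decide⟩, ⟨55, by decide⟩), (⟨53, by decide⟩, ⟨54, by decide⟩), (⟨52, by decide⟩, ⟨53, by decide⟩), (⟨51, by decide⟩, ⟨52, by decide⟩), (⟨50, by decide⟩, ⟨51, by decide⟩), (⟨49, by decide⟩, ⟨50, by decide⟩), (⟨48, by decide⟩, ⟨49, by decide⟩), (⟨47, by decide⟩, ⟨48, by decide⟩), (⟨46, by decide⟩, ⟨47, by decide⟩), (⟨45, by decide⟩, ⟨46, by decide⟩),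 (⟨44, by decide⟩, ⟨45, by decide⟩), (⟨43, by decide⟩, ⟨44, by decide⟩), (⟨42, by decide⟩, ⟨43, by decide⟩), (⟨41, by decide⟩, ⟨42, by decide⟩), (⟨40, by decide⟩, ⟨41, by decide⟩), (⟨39, by decide⟩, ⟨40, by decide⟩), (⟨38, by decide⟩, ⟨39, by decide⟩), (⟨37, by decide⟩, ⟨38, by decide⟩), (⟨36, by decide⟩, ⟨37, by decide⟩), (⟨35, by decide⟩, ⟨36, by decide⟩), (⟨34, by decide⟩, ⟨35, by decide⟩), (⟨33, by decide⟩, ⟨34, by decide⟩), (⟨32, by decide⟩, ⟨33, by decide⟩), (⟨31, by decide⟩, ⟨32, by decide⟩), (⟨30, by decide⟩, ⟨31, by decide⟩), (⟨29, by decide⟩, ⟨30, by decide⟩), (⟨28, by decide⟩, ⟨29, by decide⟩), (⟨27, by decide⟩, ⟨28, by decide⟩), (⟨26, by decide⟩, ⟨27, by decide⟩), (⟨25, by decide⟩, ⟨26, by decide⟩), (⟨24, by decide⟩, ⟨25, by decide⟩), (⟨23, by decide⟩, ⟨24, by decide⟩), (⟨22, by decide⟩, ⟨23, by decide⟩), (⟨21,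 by decide⟩, ⟨22, by decide⟩), (⟨20, by decide⟩, ⟨21, by decide⟩), (⟨19, by decide⟩, ⟨20, by decide⟩), (⟨18, by decide⟩, ⟨19, by decide⟩), (⟨17, by decide⟩, ⟨18, by decide⟩), (⟨16, by decide⟩, ⟨17, by decide⟩), (⟨15, by decide⟩, ⟨16, by decide⟩), (⟨14, by decide⟩, ⟨15, by decide⟩), (⟨13, by decide⟩, ⟨14, by decide⟩), (⟨12, by decide⟩, ⟨13, by decide⟩), (⟨11, by decide⟩, ⟨12, by decide⟩), (⟨10, by decide⟩, ⟨11, by decide⟩), (⟨9, by decide⟩, ⟨10, by decide⟩), (⟨8, by decide⟩, ⟨9, by decide⟩), (⟨7, by decide⟩, ⟨8, by decide⟩), (⟨6, by decide⟩, ⟨7, by decide⟩), (⟨5, by decide⟩, ⟨6, by decide⟩), (⟨4, by decide⟩, ⟨5, by decide⟩), (⟨3, by decide⟩, ⟨4, by decide⟩), (⟨2, by decide⟩, ⟨3, by decide⟩), (⟨1, by decide⟩, ⟨2, by decide⟩), (⟨0, by decide⟩, ⟨1, by decide⟩), (⟨47, by decide⟩, ⟨82, by decide⟩), (⟨47, by decide⟩, ⟨81, by decide⟩),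 (⟨47, by decide⟩, ⟨80, by decide⟩), (⟨47, by decide⟩, ⟨79, by decide⟩), (⟨47, by decide⟩, ⟨78, by decide⟩), (⟨47, by decide⟩, ⟨77, by decide⟩), (⟨47, by decide⟩, ⟨76, by decide⟩), (⟨47, by decide⟩, ⟨75, by decide⟩), (⟨47, by decide⟩, ⟨74, by decide⟩), (⟨47, by decide⟩, ⟨73, by decide⟩), (⟨0, by decide⟩, ⟨72, by decide⟩), (⟨0, by decide⟩, ⟨71, by decide⟩), (⟨0, by decide⟩, ⟨70, by decide⟩), (⟨0, by decide⟩, ⟨69, by decide⟩), (⟨0, by decide⟩, ⟨68, by decide⟩), (⟨0, by decide⟩, ⟨67, by decide⟩), (⟨0, by decide⟩, ⟨66, by decide⟩), (⟨0, by decide⟩, ⟨65, by decide⟩), (⟨0, by decide⟩, ⟨64, by decide⟩), (⟨0, by decide⟩, ⟨63, by decide⟩)]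

def L0 : List (Fin 83 × Fin 83) := [(⟨0, by decide⟩, ⟨62, by decide⟩), (⟨61, by decide⟩, ⟨62, by decide⟩), (⟨60, by decide⟩, ⟨61, by decide⟩), (⟨59, by decide⟩, ⟨60, by decide⟩), (⟨58, by decide⟩, ⟨59, by decide⟩), (⟨57, by decide⟩, ⟨58, by decide⟩), (⟨56, by decide⟩, ⟨57, by decide⟩), (⟨55, by decide⟩, ⟨56, by decide⟩), (⟨54, by decide⟩, ⟨55, by decide⟩), (⟨53, by decide⟩, ⟨54, by decide⟩), (⟨52, by decide⟩, ⟨53, by decide⟩), (⟨51, by decide⟩, ⟨52, by decide⟩), (⟨50, by decide⟩, ⟨51, by decide⟩), (⟨49, by decide⟩, ⟨50, by decide⟩), (⟨48, by decide⟩, ⟨49, by decide⟩), (⟨47, by decide⟩, ⟨48, by decide⟩), (⟨46, by decide⟩, ⟨47, by decide⟩), (⟨45, by decide⟩, ⟨46, by decide⟩), (⟨44, by decide⟩, ⟨45, by decide⟩), (⟨43, by decide⟩, ⟨44, by decide⟩), (⟨42, by decide⟩, ⟨43, by decide⟩), (⟨41, by decide⟩, ⟨42, by decide⟩), (⟨40,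 by decide⟩, ⟨41, by decide⟩), (⟨39, by decide⟩, ⟨40, by decide⟩), (⟨38, by decide⟩, ⟨39, by decide⟩), (⟨37, by decide⟩, ⟨38, by decide⟩), (⟨36, by decide⟩, ⟨37, by decide⟩), (⟨35, by decide⟩, ⟨36, by decide⟩), (⟨34, by decide⟩, ⟨35, by decide⟩), (⟨33, by decide⟩, ⟨34, by decide⟩), (⟨32, by decide⟩, ⟨33, by decide⟩), (⟨31, by decide⟩, ⟨32, by decide⟩), (⟨30, by decide⟩, ⟨31, by decide⟩), (⟨29, by decide⟩, ⟨30, by decide⟩), (⟨28, by decide⟩, ⟨29, by decide⟩), (⟨27, by decide⟩, ⟨28, by decide⟩), (⟨26, by decide⟩, ⟨27, by decide⟩), (⟨25, by decide⟩, ⟨26, by decide⟩), (⟨24, by decide⟩, ⟨25, by decide⟩), (⟨23, by decide⟩, ⟨24, by decide⟩), (⟨22, by decide⟩, ⟨23, by decide⟩), (⟨21, by decide⟩, ⟨22, by decide⟩), (⟨20, by decide⟩, ⟨21, by decide⟩), (⟨19, by decide⟩, ⟨20, by decide⟩), (⟨18, by decide⟩, ⟨19, by decide⟩), (⟨17, by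 decide⟩, ⟨18, by decide⟩), (⟨16, by decide⟩, ⟨17, by decide⟩), (⟨15, by decide⟩, ⟨16, by decide⟩), (⟨14, by decide⟩, ⟨15, by decide⟩), (⟨13, by decide⟩, ⟨14, by decide⟩), (⟨12, by decide⟩, ⟨13, by decide⟩), (⟨11, by decide⟩, ⟨12, by decide⟩), (⟨10, by decide⟩, ⟨11, by decide⟩), (⟨9, by decide⟩, ⟨10, by decide⟩), (⟨8, by decide⟩, ⟨9, by decide⟩), (⟨7, by decide⟩, ⟨8, by decide⟩), (⟨6, by decide⟩, ⟨7, by decide⟩), (⟨5, by decide⟩, ⟨6, by decide⟩), (⟨4, by decide⟩, ⟨5, by decide⟩), (⟨3, by decide⟩, ⟨4, by decide⟩), (⟨2, by decide⟩, ⟨3, by decide⟩), (⟨1, by decide⟩, ⟨2, by decide⟩), (⟨0, by decide⟩, ⟨1, by decide⟩), (⟨47, by decide⟩, ⟨82, by decide⟩), (⟨47, by decide⟩, ⟨81, by decide⟩), (⟨47, by decide⟩, ⟨80, by decide⟩), (⟨47, by decide⟩, ⟨79, by decide⟩), (⟨47, by decide⟩, ⟨78, by decide⟩), (⟨47, by decide⟩, ⟨77, by decide⟩),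 (⟨47, by decide⟩, ⟨76, by decide⟩), (⟨47, by decide⟩, ⟨75, by decide⟩), (⟨47, by decide⟩, ⟨74, by decide⟩), (⟨47, by decide⟩, ⟨73, by decide⟩), (⟨0, by decide⟩, ⟨72, by decide⟩), (⟨0, by decide⟩, ⟨71, by decide⟩), (⟨0, by decide⟩, ⟨70, by decide⟩), (⟨0, by decide⟩, ⟨69, by decide⟩), (⟨0, by decide⟩, ⟨68, by decide⟩), (⟨0, by decide⟩, ⟨67, by decide⟩), (⟨0, by decide⟩, ⟨66, by decide⟩), (⟨0, by decide⟩, ⟨65, by decide⟩), (⟨0, by decide⟩, ⟨64, by decide⟩), (⟨0, by decide⟩, ⟨63, by decide⟩)]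

lemma c1 : ∑ v : Fin 84, run Fin.val 84 (abv Fin.val v.val L1 []) (2 ^ v.val) (10 ^ 12 + 1) (10 ^ 12) =
    10 ^ 12 * 152794409101 + 2586002694 := by
  decide +kernel

lemma c0 : ∑ v : Fin 83, run Fin.val 84 (abv Fin.val v.val L0 []) (2 ^ v.val) (10 ^ 12 + 1) (10 ^ 12) =
    10 ^ 12 * 77961233996 + 1326941381 := by
  decide +kernel

end Pool.Agent.H.MP_e83d06_co
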